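import Mathlib
import Pool.Agent.H.MP_e444a1_co.A

namespace Pool.Agent.Results.MP_e444a1_co.Unital

open Pool.Agent.H.MP_5f9c07_co Matroid Set Submodule Module

def HasMinor {α β : Type} (M : Matroid α) (E : Set β) (Ind : Set β → Prop) : Prop :=
  ∃ N, N ≤m M ∧ ∃ g : β → α, InjOn g E ∧ g '' E = N.E ∧ ∀ I ⊆ E, (N.Indep (g '' I) ↔ Ind I)

open Pool.Agent.H.MP_e444a1_co

theorem result : ∃ (F : Type) (_ : Field F) (_ : Fintype F), Fintype.card F = 9 ∧
    ∃ M : Matroid (Fin 28), Tang F 1 M ∧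
      ¬ HasMinor M (univ : Set (Fin 10)) (fun I => I.ncard ≤ 2) ∧
      ¬ HasMinor M {e : Sym2 (Fin 4) | ¬ e.IsDiag} fun I => (SimpleGraph.fromEdgeSet I).IsAcyclic := by
  obtain ⟨M, hE, h⟩ := vm K9 v9 univ
  have u (x) : x ∈ M.E := hE ▸ mem_univ x
  have c : ∀ s ∈ L9, ∃ g, msk v9 g = s := fun s hs =>
    let ⟨_, _, q⟩ := List.mem_map.1 (k3 ▸ hs); ⟨_, q⟩
  have s := h.simp' c (by decide +kernel)
  obtain ⟨t, -⟩ := h.tg hE s k4 k5 c (by decide +kernel)
  refine ⟨K9, _, _, rfl, M, t, ?_, ?_⟩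
  · rintro ⟨N, hN, g, i, e, d⟩
    rw [image_univ] at e
    refine noU t (isStrictMinor_iff_isMinor_ne.2 ⟨hN, ?_⟩) (by decide) (injOn_univ.1 i) e
      fun I => d I (subset_univ _)
    rintro rfl
    exact absurd (Fintype.card_le_of_surjective g (range_eq_univ.1 (e.trans hE))) (by decide)
  rintro ⟨N, hN, g, i, o, d⟩
  obtain ⟨C, D, hC, -, -, rfl⟩ := hN.exists_eq_contract_delete_disjoint
  rcases C.eq_empty_or_nonempty with rfl | ⟨x, hx⟩
  · have k (a b z : Fin 4) (h1 : a ≠ b) (h2 : a ≠ z) (h3 : b ≠ z) (x y)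
        (e : ({x, y} : Set _) = {s(a, b), s(a, z)}) : (ln (g x) (g y)).testBit (g s(b, z)) := by
      have w : ({s(b, z), s(a, b), s(a, z)} : Set _) ⊆ {e : Sym2 (Fin 4) | ¬ e.IsDiag} := by
        simp [insert_subset_iff, *]
      have := (d _ w).not.2 (tri h1 h2 h3)
      rw [contract_empty, delete_indep_iff, and_iff_left (disjoint_left.2 fun x q =>
        (o.subset (image_mono w q)).2), ← e, image_insert_eq,
        image_pair] at this
      obtain ⟨p, q, r⟩ := h.dep s (u _) (u _) (u _) this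
      obtain ⟨b1, b2, b3⟩ := k1 (g x) (g y)
      obtain ⟨z, hz⟩ := c _ b1
      rw [← hz, tb] at b2 b3 ⊢
      simp [← r, b2, b3]
    refine onan (a := g s(0, 1)) (b := g s(0, 2)) (c := g s(0, 3)) (d := g s(1, 2))
      (e := g s(1, 3)) (f := g s(2, 3)) ?_ (k 0 1 2 (by decide) (by decide) (by decide) _ _ rfl)
      (k 0 1 3 (by decide) (by decide) (by decide) _ _ rfl)
      (k 0 2 3 (by decide) (by decide) (by decide) _ _ rfl)
      (k 1 2 3 (by decide) (by decide) (by decide) _ _ rfl)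
    exact List.Nodup.map_on (l := [s(2, 3), s(1, 3), s(0, 3), s(1, 2), s(0, 2), s(0, 1)])
      (fun x p y q => i (by revert x; decide) (by revert y; decide)) (by decide)
  have w : ({s(0, 1), s(0, 2), s(0, 3)} : Set _) ⊆ {e : Sym2 (Fin 4) | ¬ e.IsDiag} := by
    simp [insert_subset_iff]
  have a := (d _ w).2 star
  have a := li_rk ((h.minor hC D _ a.subset_ground).1 a)
  rw [(i.mono w).ncard_image, ncard_insert_of_notMem (by simp), ncard_pair (by simp)] at a
  have b := (span K9 (v9 '' C)).finrank_quotient_add_finrank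
  have : finrank K9 (span K9 (v9 '' C)) ≠ 0 := fun q => h.ne' s (u x)
    ((Submodule.eq_bot_iff _).1 (Submodule.finrank_eq_zero.1 q) _ (subset_span ⟨x, hx, rfl⟩))
  have := a ▸ finrank_le _
  rw [finrank_fin_fun] at b
  omega

end Pool.Agent.Results.MP_e444a1_co.Unital
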